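import Pool.Agent.W518.TC.Defs
import Pool.Agent.TH170.GS.Defs

/-!
# Newton strata of isogeny classes of abelian varieties over finite fields: definitions
-/

open Polynomial

namespace Pool.Agent.K3h30.NS

open Pool.Agent.W518.TC Pool.Agent.W495.TA

/-- The slopes `s 0 ≤ s 1 ≤ ... ≤ s (g - 1) ≤ 1 / 2` and `1 - s i` are the slopes of a symmetric
Newton polygon with integral break points: for every `x < 1 / 2`, the multiplicity of the slope `x`
times `x` is an integer. -/
structure IsNewton {g : ℕ} (s : Fin g → ℚ) : Prop where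
  mono : Monotone s
  nonneg : ∀ i, 0 ≤ s i
  le_half : ∀ i, s i ≤ 1 / 2
  integral : ∀ x : ℚ, x < 1 / 2 →
    ∃ n : ℤ, ((Finset.univ.filter fun i => s i = x).card : ℚ) * x = n

/-- The polynomial `P` of degree `2 * g` has the slopes `s i` and `1 - s i`: the absolute values of
its roots in an algebraic closure of `ℚ_p` are `q ^ (-s i)` and `q ^ (-(1 - s i))`, where
`q = p ^ a`. -/
def HasSlopes (p : ℕ) [Fact p.Prime] (a : ℕ) {g : ℕ} (s : Fin g → ℚ) (P : ℤ[X]) : Prop :=
  (P.map (Int.castRingHom (AlgebraicClosure ℚ_[p]))).roots.map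
      (fun x => spectralNorm ℚ_[p] (AlgebraicClosure ℚ_[p]) x) =
    Finset.univ.val.map (fun i => (p : ℝ) ^ (-((a * s i : ℚ) : ℝ))) +
      Finset.univ.val.map (fun i => (p : ℝ) ^ (-((a * (1 - s i) : ℚ) : ℝ)))

/-- The families of Frobenius polynomials of abelian varieties of dimension `g i` over the field with
`p ^ a` elements whose Newton polygons have the slopes `s i j` and `1 - s i j`. -/
def Stratum {κ : Type} (g : κ → ℕ) (s : ∀ i, Fin (g i) → ℚ) (p : ℕ) [Fact p.Prime] (a : ℕ) :
    Set (κ → ℤ[X]) :=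
  {P | ∀ i, IsFrobPoly p a (P i) ∧ (P i).natDegree = 2 * g i ∧ HasSlopes p a (s i) (P i)}

/-- Each factor of the abelian variety `Y` is supersingular, or some power of its Frobenius
endomorphism is, for some complex embedding of its CM field, a power of a root `z` of one of the
Frobenius polynomials `P i` of abelian varieties over the field with `p ^ a` elements (over a common
extension of the ground fields). -/
def OfPolys {p : ℕ} [Fact p.Prime] {ν : PadicAlgCl p ≃+* ℂ} {κ : Type} (a : ℕ)
    (P : κ → ℤ[X]) (Y : RedAV p ν) : Prop :=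
  ∀ k : Y.X.I, Pool.Agent.TH170.GS.IsSupersingular p Y.a (Y.π k) ∨
    ∃ (i : κ) (z : ℂ) (φ : (Y.X.factor k).E →+* ℂ) (s t : ℕ),
      ((P i).map (Int.castRingHom ℂ)).IsRoot z ∧ 0 < s ∧ 0 < t ∧ Y.a * s = a * t ∧
        φ (Y.π k) ^ s = z ^ t

end Pool.Agent.K3h30.NS
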