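import Pool.Agent.K3h30.NS.Defs
import Pool.Agent.W495.FM.HomDefs

/-!
# Schemes over finite fields generated by abelian varieties with factors in given isogeny classes
-/

open Polynomial

namespace Pool.Agent.K3h30.NS

open Pool.Agent.W495.TA Pool.Agent.W495.FM

/-- The groups of motivic and of `ℓ`-adic homology of `X` are those of an abelian variety `Y` each of
whose factors is supersingular or isogenous (over an algebraic closure) to a factor of an abelian
variety with Frobenius polynomial `P i`. -/
def IsAbelianOfPolys {p : ℕ} [Fact p.Prime] (ν : PadicAlgCl p ≃+* ℂ) {κ : Type} (a : ℕ)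
    (P : κ → ℤ[X]) {Ω V : Type} [Field Ω] [CharZero Ω] (T : Homology Ω V) (X : V) : Prop :=
  ∃ (Y : RedAV p ν) (C : Cycles Ω Y) (D : Motivic C) (g : ℕ), OfPolys a P Y ∧ IsChow C ∧
    IsMotivic D ∧ IsAbelian T X D g

end Pool.Agent.K3h30.NS
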