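import Pool.Agent.K3h30.NS.Elem
import Pool.Agent.K3h30.NS.TBDefs
import Pool.Agent.TH117.GN.Main

/-!
# Properties of the abelian varieties of almost all isogeny classes in every Newton stratum
-/

open Polynomial

namespace Pool.Agent.K3h30.NS

open Pool.Agent.W518.TC Pool.Agent.W495.TA Pool.Agent.W495.FM Pool.Agent.TH117
  Pool.Agent.TH117.GN

/-- All abelian varieties each of whose factors is supersingular or isogenous, over an algebraic
closure, to a factor of an abelian variety in a neat family, have elementary relations between the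
Frobenius eigenvalues. -/
theorem elem_of_stratum {κ : Type} [Fintype κ] {p : ℕ} [Fact p.Prime] {g : κ → ℕ}
    {s : ∀ i, Fin (g i) → ℚ} {a : ℕ} (ha : 0 < a) {P : κ → ℤ[X]} (hP : P ∈ Stratum g s p a)
    (hn : Neat p a P) {ν : PadicAlgCl p ≃+* ℂ} (Y : RedAV p ν) (hY : OfPolys a P Y) :
    ∃ Z : RedAV p ν, BL.HasElementaryRelations Z ∧ BL.IsPowersTimesSupersingular Z Y :=
  ⟨Y, elementary_of_neat hn ha (fun i => (hP i).1.monic) (fun i z hz => (hP i).1.weil z hz) hY,
    fun k => Or.inr ⟨k, RingHom.id _, 1, 1, one_pos, one_pos, rfl, rfl⟩⟩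

/-- A property that holds for the families of isogeny classes for which all abelian varieties built
from them have elementary relations between the Frobenius eigenvalues holds for almost all families in
every Newton stratum. -/
theorem almost_all {κ : Type} [Fintype κ] [Nonempty κ] (p : ℕ) [Fact p.Prime] (g : κ → ℕ)
    (hg : ∀ i, 1 ≤ g i) (s : ∀ i, Fin (g i) → ℚ) (hs : ∀ i, IsNewton (s i))
    (hss : ∀ i, ∃ j, s i j < 1 / 2) (Q : ℕ → (κ → ℤ[X]) → Prop)
    (hQ : ∀ a P, (∀ (ν : PadicAlgCl p ≃+* ℂ) (Y : RedAV p ν), OfPolys a P Y →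
      ∃ Z : RedAV p ν, BL.HasElementaryRelations Z ∧ BL.IsPowersTimesSupersingular Z Y) → Q a P)
    (N : ℕ) (ε : ℝ) (hε : 0 < ε) :
    ∃ a₀ : ℕ, ∀ a, a₀ ≤ a →
      (Stratum g s p a).Finite ∧ N ≤ (Stratum g s p a).ncard ∧
      ({P ∈ Stratum g s p a | ¬ Q a P}.ncard : ℝ) ≤ ε * ((Stratum g s p a).ncard : ℝ) := by
  classical
  obtain ⟨a₀, h⟩ := density_neat g s p hg
    (fun i => ⟨(hs i).mono, (hs i).nonneg, (hs i).le_half, (hs i).integral⟩) hss N ε hε
  refine ⟨a₀ + 1, fun a ha => ?_⟩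
  have e : Pool.Agent.W518.DN.Stratum g s p a = Stratum g s p a := rfl
  obtain ⟨h1, h2, h3⟩ := h a (by omega)
  rw [e] at h1 h2 h3
  refine ⟨h1, h2, le_trans ?_ h3⟩
  have hsub : {P ∈ Stratum g s p a | ¬ Q a P} ⊆ {P ∈ Stratum g s p a | ¬ Neat p a P} := by
    rintro P ⟨hP, hq⟩
    refine ⟨hP, fun hn => hq (hQ a P fun ν Y hY => ?_)⟩
    exact elem_of_stratum (by omega) hP hn Y hY
  exact_mod_cast Set.ncard_le_ncard hsub (h1.subset fun P hP => hP.1)

theorem tb_polys {p : ℕ} [Fact p.Prime] {ν : PadicAlgCl p ≃+* ℂ} {κ : Type} {a : ℕ} {P : κ → ℤ[X]}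
    (h : ∀ Y : RedAV p ν, OfPolys a P Y →
      ∃ Z : RedAV p ν, BL.HasElementaryRelations Z ∧ BL.IsPowersTimesSupersingular Z Y)
    {Ω V : Type} [Field Ω] [IsAlgClosed Ω] [CharZero Ω] {T : Homology Ω V} (hT : IsHomology T)
    {X : V} (hX : Generated T (IsAbelianOfPolys ν a P T) X) : TB T X := by
  refine tb_generated hT (fun X hX => ?_) hX
  obtain ⟨Y, C, D, g, h1, hC, hD, hX⟩ := hX
  obtain ⟨Z, h2, h3⟩ := h Y h1
  exact tb_abelian hT hC (tateHolds_elem h2 h3 hC) hD hX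

end Pool.Agent.K3h30.NS
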