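import Pool.Agent.K3h30.NS.Neat
import Pool.Agent.K3h30.NS.Defs
import Pool.Agent.TH170.GS.Rel

/-!
# Abelian varieties over finite fields whose factors belong to a neat family of Frobenius polynomials
-/

set_option linter.unusedSectionVars false
set_option linter.unusedVariables false

namespace Pool.Agent.K3h30.NS

open NumberField Finset Module Pool.Agent.H204R3.CM Pool.Agent.H977R3.CM Pool.Agent.TH170.CM
  Pool.Agent.TH170.MF Pool.Agent.W495.TA Pool.Agent.TH117 Pool.Agent.TH170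

variable {p : ℕ} [Fact p.Prime] {ν : PadicAlgCl p ≃+* ℂ} {κ : Type}

/-- A power of `z` is a power of `q = p ^ a`, with half the weight. -/
def SSC (p a : ℕ) (z : ℂ) : Prop := ∃ t : ℕ, 0 < t ∧ (z ^ 2) ^ t = ((p : ℂ) ^ a) ^ t

theorem root_comp {Q : Polynomial ℤ} {z : ℂ} (hz : (Q.map (Int.castRingHom ℂ)).IsRoot z)
    (σ : ℂ →+* ℂ) : (Q.map (Int.castRingHom ℂ)).IsRoot (σ z) := by
  have h2 : Q.map (Int.castRingHom ℂ) = (Q.map (Int.castRingHom ℂ)).map σ := by
    rw [Polynomial.map_map]; congr 1; exact RingHom.ext_int _ _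
  rw [h2]
  exact hz.map

theorem conj_eq_div {a : ℕ} {z : ℂ} (hz : ‖z‖ ^ 2 = (p : ℝ) ^ a) :
    starRingEnd ℂ z = (p : ℂ) ^ a / z := by
  have hp : (p : ℝ) ≠ 0 := Nat.cast_ne_zero.2 (Fact.out : p.Prime).ne_zero
  have h0 : z ≠ 0 := by
    rintro rfl
    rw [norm_zero] at hz
    exact pow_ne_zero a hp (by rw [← hz]; norm_num)
  rw [eq_div_iff h0]
  have h1 := Complex.mul_conj z
  rw [Complex.normSq_eq_norm_sq, hz] at h1
  rw [mul_comm, h1]
  push_cast
  rfl

section

variable {a : ℕ} {P : κ → Polynomial ℤ} {Y : RedAV p ν}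

/-- the eigenvalue `w` belongs to the root `z` -/
def Belongs (a : ℕ) (P : κ → Polynomial ℤ) (Y : RedAV p ν) (w : BL.Emb Y) (z : ℂ) : Prop :=
  (∃ i, ((P i).map (Int.castRingHom ℂ)).IsRoot z) ∧
    ∃ s t : ℕ, 0 < s ∧ 0 < t ∧ Y.a * s = a * t ∧ BL.eig Y w ^ s = z ^ t

theorem exists_belongs (hY : OfPolys a P Y) (w : BL.Emb Y)
    (hw : ¬ GS.IsSupersingular p Y.a (Y.π w.1)) : ∃ z, Belongs a P Y w z := by
  obtain ⟨i, z, φ, s, t, hz, hs, ht, hst, he⟩ := (hY w.1).resolve_left hw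
  obtain ⟨σ, hσ⟩ := exists_comp_eq (Y.X.factor w.1).E φ w.2
  refine ⟨σ z, ⟨i, root_comp hz (σ : ℂ →+* ℂ)⟩, s, t, hs, ht, hst, ?_⟩
  have h1 : BL.eig Y w = σ (φ (Y.π w.1)) := by
    unfold BL.eig
    rw [← hσ]
    rfl
  rw [h1, ← map_pow, he, map_pow]

theorem eig_conj (w : BL.Emb Y) : BL.eig Y (GS.conjE w) = starRingEnd ℂ (BL.eig Y w) := rfl

theorem belongs_conj (hweil : ∀ i z, ((P i).map (Int.castRingHom ℂ)).IsRoot z → ‖z‖ ^ 2 = (p : ℝ) ^ a)
    {w : BL.Emb Y} {z : ℂ} (h : Belongs a P Y w z) : Belongs a P Y (GS.conjE w) ((p : ℂ) ^ a / z) := by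
  obtain ⟨⟨i, hi⟩, s, t, hs, ht, hst, he⟩ := h
  rw [← conj_eq_div (hweil i z hi)]
  refine ⟨⟨i, root_comp hi _⟩, s, t, hs, ht, hst, ?_⟩
  rw [eig_conj, ← map_pow, he, map_pow]

/-- two roots which belong to the same eigenvalue have a common power -/
theorem belongs_pow (ha : 0 < a) {w w' : BL.Emb Y} {z z' : ℂ} (h : Belongs a P Y w z)
    (h' : Belongs a P Y w' z') : ∃ S T : ℕ, 0 < S ∧ 0 < T ∧ Y.a * S = a * T ∧
      BL.eig Y w ^ S = z ^ T ∧ BL.eig Y w' ^ S = z' ^ T := by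
  obtain ⟨-, s, t, hs, ht, hst, he⟩ := h
  obtain ⟨-, s', t', hs', ht', hst', he'⟩ := h'
  refine ⟨s * s', t * s', Nat.mul_pos hs hs', Nat.mul_pos ht hs', ?_, ?_, ?_⟩
  · rw [← mul_assoc, hst, mul_assoc]
  · rw [pow_mul, he, ← pow_mul]
  · rw [mul_comm s s', pow_mul, he', ← pow_mul]
    congr 1
    apply Nat.eq_of_mul_eq_mul_left ha
    calc a * (t' * s) = (a * t') * s := by ring
      _ = (Y.a * s') * s := by rw [hst']
      _ = (Y.a * s) * s' := by ring
      _ = (a * t) * s' := by rw [hst]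
      _ = a * (t * s') := by ring

theorem root_ne_zero {i : κ} {z : ℂ} (hweil : ∀ i z, ((P i).map (Int.castRingHom ℂ)).IsRoot z →
    ‖z‖ ^ 2 = (p : ℝ) ^ a) (hz : ((P i).map (Int.castRingHom ℂ)).IsRoot z) : z ≠ 0 := by
  have hp : (p : ℝ) ≠ 0 := Nat.cast_ne_zero.2 (Fact.out : p.Prime).ne_zero
  rintro rfl
  have := hweil i 0 hz
  rw [norm_zero] at this
  exact pow_ne_zero a hp (by rw [← this]; norm_num)

theorem isRel_iff_ss {w : BL.Emb Y} :
    GS.IsSupersingular p Y.a (Y.π w.1) ↔ ∃ s : ℕ, 0 < s ∧ BL.eig Y w ^ (2 * s) = ((p : ℂ) ^ Y.a) ^ s := by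
  constructor
  · rintro ⟨s, hs, h⟩
    refine ⟨s, hs, ?_⟩
    have h1 := congrArg w.2 h
    rw [map_pow, map_pow, map_pow, map_natCast] at h1
    exact h1
  · rintro ⟨s, hs, h⟩
    refine ⟨s, hs, ?_⟩
    apply w.2.injective
    rw [map_pow, map_pow, map_pow, map_natCast]
    exact h

/-- a root which belongs to an eigenvalue that is not supersingular is not supersingular -/
theorem not_ss_of {w : BL.Emb Y} {z : ℂ} (h : Belongs a P Y w z)
    (hw : ¬ GS.IsSupersingular p Y.a (Y.π w.1)) : ¬ SSC p a z := by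
  rintro ⟨n, hn, h1⟩
  apply hw
  rw [isRel_iff_ss]
  obtain ⟨-, s, t, hs, ht, hst, he⟩ := h
  refine ⟨s * n, Nat.mul_pos hs hn, ?_⟩
  calc BL.eig Y w ^ (2 * (s * n)) = (BL.eig Y w ^ s) ^ (2 * n) := by rw [← pow_mul]; ring_nf
    _ = ((z ^ 2) ^ n) ^ t := by rw [he, ← pow_mul, ← pow_mul, ← pow_mul]; ring_nf
    _ = (p : ℂ) ^ (a * t * n) := by rw [h1, ← pow_mul, ← pow_mul]; ring_nf
    _ = (p : ℂ) ^ (Y.a * s * n) := by rw [hst]
    _ = ((p : ℂ) ^ Y.a) ^ (s * n) := by rw [← pow_mul]; ring_nf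

/-- uniqueness of the root, by neatness -/
theorem belongs_unique (hP : Neat p a P) (ha : 0 < a)
    (hweil : ∀ i z, ((P i).map (Int.castRingHom ℂ)).IsRoot z → ‖z‖ ^ 2 = (p : ℝ) ^ a)
    {w : BL.Emb Y} {z z' : ℂ} (h : Belongs a P Y w z) (h' : Belongs a P Y w z')
    (hw : ¬ GS.IsSupersingular p Y.a (Y.π w.1)) : z = z' := by
  classical
  obtain ⟨S, T, hS, hT, hST, h1, h2⟩ := belongs_pow ha h h'
  by_contra hne
  obtain ⟨⟨i, hi⟩, -⟩ := id h
  obtain ⟨⟨i', hi'⟩, -⟩ := id h'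
  have hz0 := root_ne_zero hweil hi
  have hz0' := root_ne_zero hweil hi'
  have hzz : z ^ T = z' ^ T := h1.symm.trans h2
  have hconj := conj_eq_div (hweil i' z' hi')
  -- the relation between `z` and `q / z'`
  have h3 := hP {z, (p : ℂ) ^ a / z'} (by
    intro y hy
    rw [Multiset.insert_eq_cons, Multiset.mem_cons, Multiset.mem_singleton] at hy
    rcases hy with rfl | rfl
    · exact ⟨i, hi⟩
    · rw [← hconj]
      exact ⟨i', root_comp hi' _⟩) 1 T hT (by
    rw [Multiset.insert_eq_cons, Multiset.prod_cons, Multiset.prod_singleton, mul_pow, div_pow, hzz,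
      pow_one]
    field_simp) z ⟨i, hi⟩
  rcases h3 with h3 | h3
  · exact not_ss_of h hw h3
  · have hzne : z ≠ (p : ℂ) ^ a / z := by
      intro h4
      apply not_ss_of h hw
      refine ⟨1, one_pos, ?_⟩
      rw [pow_one, pow_one, sq]
      nth_rewrite 2 [h4]
      field_simp
    have hq0 : (p : ℂ) ^ a ≠ 0 := pow_ne_zero _ (Nat.cast_ne_zero.2 (Fact.out : p.Prime).ne_zero)
    have hne2 : (p : ℂ) ^ a / z ≠ (p : ℂ) ^ a / z' := by
      intro h4
      apply hne
      rw [div_eq_div_iff hz0 hz0'] at h4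
      exact (mul_left_cancel₀ hq0 h4).symm
    rw [Multiset.insert_eq_cons, Multiset.count_cons_self, Multiset.count_cons_of_ne hzne.symm,
      Multiset.count_singleton, Multiset.count_singleton, if_neg hne2] at h3
    omega

/-- two eigenvalues which belong to `z` and `q / z` -/
theorem pair_mem (ha : 0 < a) [DecidableEq (BL.Emb Y)] {w w' : BL.Emb Y} {z : ℂ} (hz0 : z ≠ 0)
    (h : Belongs a P Y w z) (h' : Belongs a P Y w' ((p : ℂ) ^ a / z)) :
    (Pi.single w 1 + Pi.single w' 1 : BL.Emb Y → ℤ) ∈ AddSubgroup.closure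
      {d : BL.Emb Y → ℤ | ∃ n : BL.Emb Y → ℕ, BL.IsRel Y n ∧ BL.IsElementary Y n ∧
        ∀ w, d w = n w} := by
  classical
  have hsum : ∑ v, (Pi.single w 1 + Pi.single w' 1 : BL.Emb Y → ℕ) v = 2 := by
    simp only [Pi.add_apply, sum_add_distrib, Finset.sum_pi_single', mem_univ, if_true]
  refine AddSubgroup.subset_closure ⟨Pi.single w 1 + Pi.single w' 1, ?_, Or.inl hsum.le,
    fun v => ?_⟩
  · obtain ⟨S, T, hS, hT, hST, h1, h2⟩ := belongs_pow ha h h'
    refine ⟨S, hS, ?_⟩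
    have hprod : ∏ v, BL.eig Y v ^ (Pi.single w 1 + Pi.single w' 1 : BL.Emb Y → ℕ) v =
        BL.eig Y w * BL.eig Y w' := by
      simp only [Pi.add_apply, pow_add]
      rw [prod_mul_distrib]
      congr 1
      · rw [prod_eq_single w]
        · rw [Pi.single_eq_same, pow_one]
        · intro v _ hv
          rw [Pi.single_eq_of_ne hv, pow_zero]
        · intro h
          exact absurd (mem_univ _) h
      · rw [prod_eq_single w']
        · rw [Pi.single_eq_same, pow_one]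
        · intro v _ hv
          rw [Pi.single_eq_of_ne hv, pow_zero]
        · intro h
          exact absurd (mem_univ _) h
    rw [hprod, hsum]
    have h3 : (BL.eig Y w * BL.eig Y w') ^ S = ((p : ℂ) ^ Y.a) ^ S := by
      rw [mul_pow, h1, h2, ← mul_pow, mul_div_cancel₀ _ hz0, ← pow_mul, ← pow_mul, ← hST]
    rw [mul_comm 2 S, pow_mul, h3, ← pow_mul, ← pow_mul]
  · rw [Pi.add_apply, Pi.add_apply, Nat.cast_add]
    simp only [Pi.single_apply]
    split_ifs <;> simp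

open Classical in
/-- **All relations between the Frobenius eigenvalues of an abelian variety whose factors belong to a
neat family are elementary.** -/
theorem elementary_of_neat [Fintype κ] (hP : Neat p a P) (ha : 0 < a) (hm : ∀ i, (P i).Monic)
    (hweil : ∀ i z, ((P i).map (Int.castRingHom ℂ)).IsRoot z → ‖z‖ ^ 2 = (p : ℝ) ^ a)
    (hY : OfPolys a P Y) : BL.HasElementaryRelations Y := by
  intro e he
  have hq0 : (p : ℂ) ^ a ≠ 0 := pow_ne_zero _ (Nat.cast_ne_zero.2 (Fact.out : p.Prime).ne_zero)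
  let IsSS : BL.Emb Y → Prop := fun w => GS.IsSupersingular p Y.a (Y.π w.1)
  choose! zz hzz using fun (w : BL.Emb Y) (h : ¬ IsSS w) => exists_belongs hY w h
  -- the roots
  let X : Type := {z : ℂ // z ∈ (Finset.univ.biUnion fun i : κ =>
    ((P i).map (Int.castRingHom ℂ)).roots.toFinset).filter fun z => ¬ SSC p a z}
  let _ : Fintype X := inferInstanceAs (Fintype {z : ℂ // z ∈ (Finset.univ.biUnion fun i : κ =>
    ((P i).map (Int.castRingHom ℂ)).roots.toFinset).filter fun z => ¬ SSC p a z})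
  have hX : ∀ z : ℂ, (z ∈ (Finset.univ.biUnion fun i : κ =>
      ((P i).map (Int.castRingHom ℂ)).roots.toFinset).filter fun z => ¬ SSC p a z) ↔
      (∃ i, ((P i).map (Int.castRingHom ℂ)).IsRoot z) ∧ ¬ SSC p a z := by
    intro z
    rw [Finset.mem_filter, Finset.mem_biUnion]
    simp only [Finset.mem_univ, true_and, Multiset.mem_toFinset]
    have h1 : ∀ i, z ∈ ((P i).map (Int.castRingHom ℂ)).roots ↔
        ((P i).map (Int.castRingHom ℂ)).IsRoot z := fun i =>
      Polynomial.mem_roots ((hm i).map _).ne_zero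
    simp only [h1]
  have hss_inv : ∀ z : ℂ, z ≠ 0 → SSC p a ((p : ℂ) ^ a / z) → SSC p a z := by
    rintro z hz ⟨t, ht, h⟩
    refine ⟨t, ht, ?_⟩
    rw [div_pow, div_pow, ← pow_mul, mul_comm 2 t, pow_mul, sq, mul_div_assoc,
      mul_eq_left₀ (pow_ne_zero _ hq0), div_eq_one_iff_eq (pow_ne_zero _ (pow_ne_zero _ hz))] at h
    exact h.symm
  have hXne : ∀ x : X, x.1 ≠ 0 := fun x => by
    obtain ⟨⟨i, hi⟩, -⟩ := (hX x.1).1 x.2
    exact root_ne_zero hweil hi
  let inv : X → X := fun x => ⟨(p : ℂ) ^ a / x.1, (hX _).2 (by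
    obtain ⟨⟨i, hi⟩, h2⟩ := (hX x.1).1 x.2
    refine ⟨⟨i, ?_⟩, fun h => h2 (hss_inv _ (hXne x) h)⟩
    rw [← conj_eq_div (hweil i x.1 hi)]
    exact root_comp hi _)⟩
  have hinv : ∀ z, inv (inv z) = z := by
    intro z
    apply Subtype.ext
    change (p : ℂ) ^ a / ((p : ℂ) ^ a / z.1) = z.1
    have := hXne z
    field_simp
  have hfix : ∀ z, inv z ≠ z := by
    intro z h
    obtain ⟨-, h2⟩ := (hX z.1).1 z.2
    apply h2
    refine ⟨1, one_pos, ?_⟩
    have h3 : (p : ℂ) ^ a / z.1 = z.1 := congrArg Subtype.val h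
    have := hXne z
    rw [pow_one, pow_one, sq]
    nth_rewrite 1 [← h3]
    field_simp
  have hzX : ∀ w, ¬ IsSS w → (zz w ∈ (Finset.univ.biUnion fun i : κ =>
      ((P i).map (Int.castRingHom ℂ)).roots.toFinset).filter fun z => ¬ SSC p a z) := fun w hw =>
    (hX _).2 ⟨(hzz w hw).1, not_ss_of (hzz w hw) hw⟩
  let F : BL.Emb Y → Option X := fun w => if h : IsSS w then none else some ⟨zz w, hzX w h⟩
  have hF1 : ∀ w, IsSS w → F w = none := fun w h => dif_pos h
  have hF2 : ∀ w (h : ¬ IsSS w), F w = some ⟨zz w, hzX w h⟩ := fun w h => dif_neg h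
  have hF3 : ∀ w (x : X), F w = some x ↔ ¬ IsSS w ∧ zz w = x.1 := by
    intro w x
    by_cases h : IsSS w
    · rw [hF1 w h]
      simp [h]
    · rw [hF2 w h, Option.some_inj, Subtype.ext_iff]
      simp [h]
  have hFb : ∀ w (x : X), F w = some x → Belongs a P Y w x.1 := by
    intro w x h
    obtain ⟨h1, h2⟩ := (hF3 w x).1 h
    rw [← h2]
    exact hzz w h1
  refine GS.mem_of_symm _ F inv hinv hfix ?_ ?_ ?_ (fun w => (e w : ℤ)) ?_
  · intro w hw
    apply GS.single_mem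
    by_contra h
    have h1 := hF2 w h
    rw [hw] at h1
    exact absurd h1 (by simp)
  · intro w w' z hz hz'
    exact pair_mem ha (hXne z) (hFb w z hz) (hFb w' (inv z) hz')
  · intro w z hz
    refine ⟨GS.conjE w, ?_⟩
    obtain ⟨h1, h2⟩ := (hF3 w z).1 hz
    have h3 : ¬ IsSS (GS.conjE w) := h1
    rw [hF3]
    refine ⟨h3, ?_⟩
    exact belongs_unique hP ha hweil (hzz _ h3) (belongs_conj hweil (hFb w z hz)) h3
  · intro z
    -- common exponents
    have hex : ∀ w : BL.Emb Y, ∃ s : ℕ, 0 < s ∧ (IsSS w → BL.eig Y w ^ (2 * s) = ((p : ℂ) ^ Y.a) ^ s) ∧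
        (¬ IsSS w → ∃ t, 0 < t ∧ Y.a * s = a * t ∧ BL.eig Y w ^ s = zz w ^ t) := by
      intro w
      by_cases h : IsSS w
      · obtain ⟨s, hs, h1⟩ := isRel_iff_ss.1 h
        exact ⟨s, hs, fun _ => h1, fun h2 => absurd h h2⟩
      · obtain ⟨-, s, t, hs, ht, hst, h1⟩ := hzz w h
        exact ⟨s, hs, fun h2 => absurd h2 h, fun _ => ⟨t, ht, hst, h1⟩⟩
    choose sw hsw hss hns using hex
    set M := ∏ w, sw w with hM
    have hMpos : 0 < M := Finset.prod_pos fun w _ => hsw w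
    have hdvd : ∀ w, sw w ∣ M := fun w => Finset.dvd_prod_of_mem _ (mem_univ w)
    have hA : ∀ w, ¬ IsSS w → BL.eig Y w ^ (a * M) = zz w ^ (Y.a * M) := by
      intro w h
      obtain ⟨t, ht, hst, h1⟩ := hns w h
      obtain ⟨c, hc⟩ := hdvd w
      rw [hc]
      calc BL.eig Y w ^ (a * (sw w * c)) = (BL.eig Y w ^ sw w) ^ (a * c) := by
            rw [← pow_mul]; ring_nf
        _ = zz w ^ ((a * t) * c) := by rw [h1, ← pow_mul]; ring_nf
        _ = zz w ^ (Y.a * (sw w * c)) := by rw [← hst]; ring_nf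
    have hB : ∀ w, IsSS w → BL.eig Y w ^ (2 * (a * M)) = ((p : ℂ) ^ a) ^ (Y.a * M) := by
      intro w h
      have h1 := hss w h
      obtain ⟨c, hc⟩ := hdvd w
      rw [hc]
      calc BL.eig Y w ^ (2 * (a * (sw w * c))) = (BL.eig Y w ^ (2 * sw w)) ^ (a * c) := by
            rw [← pow_mul]; ring_nf
        _ = ((p : ℂ) ^ a) ^ (Y.a * (sw w * c)) := by rw [h1, ← pow_mul, ← pow_mul, ← pow_mul]; ring_nf
    have hT : 0 < Y.a * M := Nat.mul_pos Y.pos hMpos
    obtain ⟨s, hs, hrel⟩ := he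
    -- the multiset
    set R : Multiset ℂ := ∑ w ∈ Finset.univ.filter (fun w => ¬ IsSS w),
      Multiset.replicate (2 * (Y.a * M) * e w) (zz w) with hR
    have hRprod : R.prod = ∏ w ∈ Finset.univ.filter (fun w => ¬ IsSS w),
        zz w ^ (2 * (Y.a * M) * e w) := by
      rw [hR, Multiset.prod_sum]
      exact Finset.prod_congr rfl fun w _ => Multiset.prod_replicate _ _
    have hcount : ∀ x : X, (R.count x.1 : ℤ) = 2 * (Y.a * M : ℕ) *
        ∑ w, (if F w = some x then (e w : ℤ) else 0) := by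
      intro x
      rw [hR, Multiset.count_sum', Finset.sum_filter, Nat.cast_sum, Finset.mul_sum]
      refine Finset.sum_congr rfl fun w _ => ?_
      by_cases h : IsSS w
      · have h1 : ¬ (F w = some x) := by rw [hF3]; exact fun h2 => h2.1 h
        rw [if_neg (not_not.2 h), if_neg h1]
        simp
      · rw [if_pos h, Multiset.count_replicate]
        by_cases h2 : zz w = x.1
        · rw [if_pos h2, if_pos ((hF3 w x).2 ⟨h, h2⟩)]
          push_cast
          ring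
        · rw [if_neg h2, if_neg (fun h3 => h2 ((hF3 w x).1 h3).2)]
          simp
    have hprod : R.prod ^ s = (((p : ℂ) ^ a) ^ ((Y.a * M) *
        ∑ w ∈ Finset.univ.filter (fun w => ¬ IsSS w), e w)) ^ s := by
      have h1 : (∏ w, (BL.eig Y w ^ (2 * (a * M))) ^ e w) ^ s =
          (((p : ℂ) ^ a) ^ (Y.a * M)) ^ (s * ∑ w, e w) := by
        have h2 := congrArg (fun y => y ^ (a * M)) hrel
        calc (∏ w, (BL.eig Y w ^ (2 * (a * M))) ^ e w) ^ s
            = ((∏ w, BL.eig Y w ^ e w) ^ (2 * s)) ^ (a * M) := by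
              have h3 : ∏ w, (BL.eig Y w ^ (2 * (a * M))) ^ e w =
                  (∏ w, BL.eig Y w ^ e w) ^ (2 * (a * M)) := by
                rw [← Finset.prod_pow]
                exact Finset.prod_congr rfl fun w _ => by rw [← pow_mul, ← pow_mul, mul_comm]
              rw [h3, ← pow_mul, ← pow_mul]
              ring_nf
          _ = (((p : ℂ) ^ Y.a) ^ (s * ∑ w, e w)) ^ (a * M) := h2
          _ = _ := by rw [← pow_mul, ← pow_mul, ← pow_mul, ← pow_mul]; ring_nf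
      have hsplit : ∀ f : BL.Emb Y → ℂ, ∏ w, f w = (∏ w ∈ Finset.univ.filter (fun w => ¬ IsSS w), f w) *
          ∏ w ∈ Finset.univ.filter (fun w => ¬ ¬ IsSS w), f w := fun f =>
        (Finset.prod_filter_mul_prod_filter_not _ _ _).symm
      have hsplit' : ∑ w, e w = (∑ w ∈ Finset.univ.filter (fun w => ¬ IsSS w), e w) +
          ∑ w ∈ Finset.univ.filter (fun w => ¬ ¬ IsSS w), e w :=
        (Finset.sum_filter_add_sum_filter_not _ _ _).symm
      rw [hsplit, hsplit'] at h1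
      have e1 : ∏ w ∈ Finset.univ.filter (fun w => ¬ IsSS w), (BL.eig Y w ^ (2 * (a * M))) ^ e w =
          R.prod := by
        rw [hRprod]
        refine Finset.prod_congr rfl fun w hw => ?_
        rw [mul_comm 2, pow_mul (BL.eig Y w), hA w (Finset.mem_filter.1 hw).2, ← pow_mul, ← pow_mul]
        ring_nf
      have e2 : ∏ w ∈ Finset.univ.filter (fun w => ¬ ¬ IsSS w), (BL.eig Y w ^ (2 * (a * M))) ^ e w =
          (((p : ℂ) ^ a) ^ (Y.a * M)) ^ ∑ w ∈ Finset.univ.filter (fun w => ¬ ¬ IsSS w), e w := by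
        rw [← Finset.prod_pow_eq_pow_sum]
        refine Finset.prod_congr rfl fun w hw => ?_
        rw [hB w (not_not.1 (Finset.mem_filter.1 hw).2)]
      rw [e1, e2, mul_pow, mul_add, pow_add] at h1
      have e3 : ((((p : ℂ) ^ a) ^ (Y.a * M)) ^ ∑ w ∈ Finset.univ.filter (fun w => ¬ ¬ IsSS w), e w) ^ s =
          (((p : ℂ) ^ a) ^ (Y.a * M)) ^ (s * ∑ w ∈ Finset.univ.filter (fun w => ¬ ¬ IsSS w), e w) := by
        rw [← pow_mul, mul_comm s]
      rw [e3] at h1
      have h4 := mul_right_cancel₀ (pow_ne_zero _ (pow_ne_zero _ hq0)) h1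
      rw [h4, ← pow_mul, ← pow_mul, ← pow_mul]
      ring_nf
    have hbal := hP R (by
      intro y hy
      rw [hR, Multiset.mem_sum] at hy
      obtain ⟨w, hw, hy⟩ := hy
      rw [Multiset.eq_of_mem_replicate hy]
      exact (hzz w (Finset.mem_filter.1 hw).2).1) _ s hs hprod z.1 ((hX z.1).1 z.2).1
    have hbal' := hbal.resolve_left ((hX z.1).1 z.2).2
    have h1 := hcount z
    have h2 := hcount (inv z)
    have h3 : (inv z).1 = (p : ℂ) ^ a / z.1 := rfl
    rw [h3, ← hbal', h1] at h2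
    have h4 : (2 * ((Y.a * M : ℕ) : ℤ)) ≠ 0 := by
      have : ((Y.a * M : ℕ) : ℤ) ≠ 0 := by exact_mod_cast hT.ne'
      omega
    exact mul_left_cancel₀ h4 h2

end

end Pool.Agent.K3h30.NS
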