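import Pool.Agent.W518.DN.Density

/-!
# The relations between the Frobenius eigenvalues of almost all abelian varieties in every Newton
stratum
-/

open Polynomial NumberField

namespace Pool.Agent.K3h30.NS

open Pool.Agent.W518.TC Pool.Agent.W518.DN

/-- Let `A_i` be abelian varieties over the field with `p ^ a` elements with Frobenius polynomials
`P i`. The only multiplicative relations between their Frobenius eigenvalues, `q = p ^ a` and roots of
unity are the trivial ones: in every finite multiset of eigenvalues whose product is a power of `q`, up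
to a root of unity, each eigenvalue `z` (that is not a root of unity times a square root of `q`) occurs
as often as `q / z`. -/
def Neat {κ : Type} (p a : ℕ) (P : κ → ℤ[X]) : Prop :=
  ∀ (R : Multiset ℂ), (∀ z ∈ R, ∃ i, ((P i).map (Int.castRingHom ℂ)).IsRoot z) →
    ∀ m s : ℕ, 0 < s → R.prod ^ s = (((p : ℂ) ^ a) ^ m) ^ s →
      ∀ z : ℂ, (∃ i, ((P i).map (Int.castRingHom ℂ)).IsRoot z) →
        (∃ t : ℕ, 0 < t ∧ (z ^ 2) ^ t = ((p : ℂ) ^ a) ^ t) ∨ R.count z = R.count ((p : ℂ) ^ a / z)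

theorem neat_of_patterns {κ : Type} [Fintype κ] (p : ℕ) [hp : Fact p.Prime] (a : ℕ) (g : κ → ℕ)
    (h : κ → ℤ[X])
    (hm : ∀ i, (h i).Monic) (hd : ∀ i, (h i).natDegree = g i)
    (hirr : ∀ i, ∃ (l : ℕ) (_ : Fact l.Prime), Irreducible ((h i).map (Int.castRingHom (ZMod l))))
    (hfl : ∀ i0, ∃ (l : ℕ) (_ : Fact l.Prime), (((p ^ a : ℕ) : ℕ) : ZMod l) ≠ 0 ∧
      ∃ (y : ∀ i, Fin (g i) → ZMod l), (∀ i, Function.Injective (y i)) ∧
        (∀ i, (h i).map (Int.castRingHom (ZMod l)) = ∏ t, (X - C (y i t))) ∧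
        ∃ t0 : Fin (g i0), y i0 t0 ∈ goodB l ((p ^ a : ℕ) : ZMod l) ∧
          ∀ i t, (⟨i, t⟩ : Σ i, Fin (g i)) ≠ ⟨i0, t0⟩ → y i t ∈ goodA l ((p ^ a : ℕ) : ZMod l)) :
    Neat p a fun i => lift ((p ^ a : ℕ) : ℤ) (g i) (h i) := by
  classical
  have hq : p ^ a ≠ 0 := pow_ne_zero _ hp.out.ne_zero
  have hirrQ : ∀ i, Irreducible ((h i).map (Int.castRingHom ℚ)) := by
    intro i
    obtain ⟨l, hl, hi⟩ := hirr i
    have h1 : Irreducible (h i) := (hm i).irreducible_of_irreducible_map _ _ hi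
    exact (IsPrimitive.Int.irreducible_iff_irreducible_map_cast (hm i).isPrimitive).1 h1
  have hPm : ∀ i, (lift ((p ^ a : ℕ) : ℤ) (g i) (h i)).Monic := fun i =>
    (lift_monic _ _ _ (hm i) (hd i)).1
  set f : ℤ[X] := ∏ i, (lift ((p ^ a : ℕ) : ℤ) (g i) (h i) * h i) with hf
  have hfm : f.Monic := monic_prod_of_monic _ _ fun i _ => (hPm i).mul (hm i)
  set PQ : ℚ[X] := f.map (Int.castRingHom ℚ) with hPQ
  have hLN : NumberField PQ.SplittingField :=
    { to_charZero := charZero_of_injective_algebraMap (algebraMap ℚ PQ.SplittingField).injective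
      to_finiteDimensional := inferInstance }
  have hsf : IsSplittingField ℚ PQ.SplittingField PQ := Polynomial.IsSplittingField.splittingField PQ
  have hnormal : Normal ℚ PQ.SplittingField := Normal.of_isSplittingField PQ
  have hGal : IsGalois ℚ PQ.SplittingField := ⟨⟩
  have hsplit : (f.map (Int.castRingHom PQ.SplittingField)).Splits := by
    have h1 := SplittingField.splits PQ
    convert h1 using 1
    rw [hPQ, Polynomial.map_map]; congr 1
  have hf0 : f.map (Int.castRingHom PQ.SplittingField) ≠ 0 := (hfm.map _).ne_zero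
  have hsub : ∀ i, (((lift ((p ^ a : ℕ) : ℤ) (g i) (h i)) * h i).map
      (Int.castRingHom PQ.SplittingField)).Splits := by
    intro i
    refine hsplit.of_dvd hf0 ?_
    exact Polynomial.map_dvd _ (Finset.dvd_prod_of_mem _ (Finset.mem_univ i))
  have hPs : ∀ i, ((lift ((p ^ a : ℕ) : ℤ) (g i) (h i)).map
      (Int.castRingHom PQ.SplittingField)).Splits :=
    fun i => (hsub i).of_dvd (((hPm i).mul (hm i)).map _).ne_zero
      (Polynomial.map_dvd _ (dvd_mul_right _ _))
  have hhs : ∀ i, ((h i).map (Int.castRingHom PQ.SplittingField)).Splits := fun i =>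
    (hsub i).of_dvd (((hPm i).mul (hm i)).map _).ne_zero (Polynomial.map_dvd _ (dvd_mul_left _ _))
  have hflip : ∀ i0, ∃ (σ : PQ.SplittingField ≃ₐ[ℚ] PQ.SplittingField) (y0 : PQ.SplittingField),
      ((h i0).map (Int.castRingHom PQ.SplittingField)).IsRoot y0 ∧
      ∀ i (π : PQ.SplittingField), ((lift ((p ^ a : ℕ) : ℤ) (g i) (h i)).map
        (Int.castRingHom PQ.SplittingField)).IsRoot π →
        (π + (p ^ a : ℕ) / π = y0 → σ π = (p ^ a : ℕ) / π) ∧ (π + (p ^ a : ℕ) / π ≠ y0 → σ π = π) := by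
    intro i0
    obtain ⟨l, hl, hql, y, hy, hhy, t0, hB, hA⟩ := hfl i0
    exact exists_flip (p ^ a) g h hm hd PQ.SplittingField hhs l hql y hy hhy i0 t0 hB hA
  obtain ⟨j⟩ : Nonempty (PQ.SplittingField →+* ℂ) := inferInstance
  have hjq : j ((p ^ a : ℕ) : PQ.SplittingField) = (p : ℂ) ^ a := by
    rw [map_natCast]; push_cast; rfl
  -- roots in `ℂ` come from `L`
  have hroot : ∀ (i : κ) (z : ℂ), ((lift ((p ^ a : ℕ) : ℤ) (g i) (h i)).map
      (Int.castRingHom ℂ)).IsRoot z → ∃ π : PQ.SplittingField,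
        ((lift ((p ^ a : ℕ) : ℤ) (g i) (h i)).map (Int.castRingHom PQ.SplittingField)).IsRoot π ∧
          j π = z := by
    intro i z hz
    have h4 : (lift ((p ^ a : ℕ) : ℤ) (g i) (h i)).map (Int.castRingHom ℂ)
        = ((lift ((p ^ a : ℕ) : ℤ) (g i) (h i)).map (Int.castRingHom PQ.SplittingField)).map j := by
      rw [Polynomial.map_map]; congr 1; exact RingHom.ext_int _ _
    have h5 : z ∈ (((lift ((p ^ a : ℕ) : ℤ) (g i) (h i)).map
        (Int.castRingHom PQ.SplittingField)).map j).roots := by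
      rw [mem_roots (((hPm i).map _).map _).ne_zero, ← h4]; exact hz
    rw [(hPs i).roots_map] at h5
    obtain ⟨π, hπ, hπν⟩ := Multiset.mem_map.1 h5
    exact ⟨π, (mem_roots ((hPm i).map _).ne_zero).1 hπ, hπν⟩
  intro R hR m s hs hprod z hz
  -- lift the multiset
  obtain ⟨R', hR', hR'root⟩ : ∃ R' : Multiset PQ.SplittingField, R'.map j = R ∧
      ∀ π ∈ R', ∃ i, ((lift ((p ^ a : ℕ) : ℤ) (g i) (h i)).map
        (Int.castRingHom PQ.SplittingField)).IsRoot π := by
    clear hprod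
    induction R using Multiset.induction_on with
    | empty => exact ⟨0, rfl, by simp⟩
    | cons x R ih =>
      obtain ⟨R', h1, h2⟩ := ih (fun w hw => hR w (Multiset.mem_cons_of_mem hw))
      obtain ⟨i, hi⟩ := hR x (Multiset.mem_cons_self _ _)
      obtain ⟨π, hπ, hπx⟩ := hroot i x hi
      refine ⟨π ::ₘ R', by rw [Multiset.map_cons, h1, hπx], ?_⟩
      intro w hw
      rcases Multiset.mem_cons.1 hw with rfl | hw
      · exact ⟨i, hπ⟩
      · exact h2 w hw
  obtain ⟨i, hi⟩ := hz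
  obtain ⟨π, hπ, rfl⟩ := hroot i z hi
  have hprod' : R'.prod ^ s = ((((p ^ a : ℕ) : PQ.SplittingField)) ^ m) ^ s := by
    apply j.injective
    rw [map_pow, map_pow, map_pow, hjq, map_multiset_prod, hR']
    exact hprod
  have hbal := balanced_of_flips_ss (L := PQ.SplittingField) hq hm hd hirrQ hflip R'
    (fun w hw => Or.inl (hR'root w hw)) m s hs hprod' i π hπ
  rcases hbal with ⟨t, ht, h1⟩ | h1
  · left
    refine ⟨t, ht, ?_⟩
    have := congrArg j h1
    rwa [map_pow, map_pow, map_pow, hjq] at this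
  · right
    rw [← hjq, ← map_div₀, ← hR', Multiset.count_map_eq_count' _ _ j.injective,
      Multiset.count_map_eq_count' _ _ j.injective]
    exact h1

section final

variable {κ : Type} [Fintype κ] [DecidableEq κ] (g : κ → ℕ) (s : ∀ i, Fin (g i) → ℚ)
  (p : ℕ) [hp : Fact p.Prime]

/-- Good points. -/
theorem good_of_hits (a : ℕ) (hg : ∀ i, 1 ≤ g i) (b : (Σ i, Fin (g i)) → ℤ)
    (T : Finset Nat.Primes) (hT : ∀ l ∈ T, (l : ℕ) ≠ p)
    (h : ∀ c : κ ⊕ κ, ∃ l ∈ T, (fun j => ((b j : ℤ) : ZMod (l : ℕ))) ∈ SS' g s p a c l) :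
    Neat p a (Psi g s p a b) := by
  classical
  set B : (Σ i, Fin (g i)) → ℤ := fun j => (p : ℤ) ^ Eexp g s a j * b j with hB
  have hmap : ∀ (l : Nat.Primes) (i : κ), (hTup g B i).map (Int.castRingHom (ZMod (l : ℕ))) =
      Pool.Agent.W518.DN.hp (fun t : Fin (g i) =>
        (p : ZMod (l : ℕ)) ^ Eexp g s a ⟨i, t⟩ * ((b ⟨i, t⟩ : ℤ) : ZMod (l : ℕ))) := by
    intro l i
    rw [hTup, hp_map]
    congr 1
    funext t
    simp [hB]
  have hmem : ∀ c : κ ⊕ κ, ∃ l ∈ T, ∀ i, (fun t : Fin (g i) => (p : ZMod ((l : Nat.Primes) : ℕ)) ^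
      Eexp g s a ⟨i, t⟩ * ((b ⟨i, t⟩ : ℤ) : ZMod (l : ℕ))) ∈ pat g (p ^ a) (l : ℕ) c i := by
    intro c
    obtain ⟨l, hl, hlm⟩ := h c
    refine ⟨l, hl, ?_⟩
    rw [SS', Finset.mem_filter] at hlm
    have := hlm.2
    rw [patSet, Finset.mem_filter] at this
    exact this.2
  refine neat_of_patterns p a g (hTup g B) (fun i => hp_monic _) (fun i => hp_natDegree _) ?_ ?_
  · intro i
    obtain ⟨l, hl, hlm⟩ := hmem (Sum.inl i)
    refine ⟨(l : ℕ), inferInstance, ?_⟩
    have h1 := hlm i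
    simp only [pat, if_true] at h1
    rw [hmap l i]
    exact (Finset.mem_filter.1 h1).2
  · intro i0
    obtain ⟨l, hl, hlm⟩ := hmem (Sum.inr i0)
    have hpl : ((p ^ a : ℕ) : ZMod (l : ℕ)) ≠ 0 := by
      push_cast
      apply pow_ne_zero
      intro h0
      rw [ZMod.natCast_eq_zero_iff] at h0
      rcases (Nat.dvd_prime hp.out).1 h0 with h1 | h1
      · exact l.2.one_lt.ne' h1
      · exact hT l hl h1
    refine ⟨(l : ℕ), inferInstance, hpl, ?_⟩
    have h2 : ∀ i, ∃ y : Fin (g i) → ZMod (l : ℕ), Function.Injective y ∧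
        (∀ t : Fin (g i), y t ∈ (if i = i0 ∧ (t : ℕ) = 0 then goodB (l : ℕ) ((p ^ a : ℕ) : ZMod (l : ℕ))
          else goodA (l : ℕ) ((p ^ a : ℕ) : ZMod (l : ℕ)))) ∧
        (hTup g B i).map (Int.castRingHom (ZMod (l : ℕ))) = ∏ t, (X - C (y t)) := by
      intro i
      have h1 := hlm i
      simp only [pat] at h1
      unfold Pool.Agent.W518.DN.rootSet at h1
      rw [Finset.mem_filter] at h1
      obtain ⟨_, y, hy1, hy2, hy3⟩ := h1
      exact ⟨y, hy1, hy2, by rw [hmap l i]; exact hy3⟩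
    choose y hy1 hy2 hy3 using h2
    refine ⟨y, hy1, hy3, ⟨0, hg i0⟩, ?_, ?_⟩
    · have := hy2 i0 ⟨0, hg i0⟩
      rwa [if_pos ⟨rfl, rfl⟩] at this
    · intro i t hne
      have := hy2 i t
      rwa [if_neg ?_] at this
      rintro ⟨rfl, h0⟩
      apply hne
      congr 1
      exact Fin.ext h0

/-- **Density one of the neat families in every Newton stratum.** -/
theorem density_neat (hg : ∀ i, 1 ≤ g i) (hs : ∀ i, IsNewton (s i)) (hss : ∀ i, ∃ j, s i j < 1 / 2)
    [Nonempty κ] (N0 : ℕ) (ε : ℝ) (hε : 0 < ε) :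
    ∃ a0 : ℕ, ∀ a, a0 ≤ a → (Stratum g s p a).Finite ∧ N0 ≤ (Stratum g s p a).ncard ∧
      (({P ∈ Stratum g s p a | ¬ Neat p a P}.ncard : ℕ) : ℝ) ≤
        ε * (Stratum g s p a).ncard := by
  classical
  have hp2 := hp.out.two_le
  have hppos : (0 : ℝ) < p := by exact_mod_cast hp.out.pos
  set G : ℕ := ∑ i, g i with hG
  have hgG : ∀ i, g i ≤ G := fun i => Finset.single_le_sum (fun _ _ => Nat.zero_le _)
    (Finset.mem_univ i)
  set KK : ℝ := 2 * 4 ^ G + 1 with hKK
  have hKKpos : 0 < KK := by positivity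
  set nJ := Fintype.card (Σ i, Fin (g i)) with hnJ
  set c0 : ℝ := (∏ i, ((4 * g i : ℕ) ^ g i : ℝ))⁻¹ with hc0
  have hprod1 : (1 : ℝ) ≤ ∏ i, ((4 * g i : ℕ) ^ g i : ℝ) := by
    have h1 : (1 : ℝ) = ∏ _i : κ, (1 : ℝ) := by simp
    rw [h1]
    refine Finset.prod_le_prod (fun _ _ => zero_le_one) fun i _ => ?_
    have h2 : 1 ≤ (4 * g i) ^ g i := Nat.one_le_pow _ _ (by have := hg i; omega)
    exact_mod_cast h2
  have hc0pos : 0 < c0 := by rw [hc0]; positivity
  have hc01 : c0 ≤ 1 := inv_le_one_of_one_le₀ hprod1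
  set A : ℝ := ∏ j : (Σ i, Fin (g i)), (del (g j.1) / p) with hA
  have hApos : 0 < A := Finset.prod_pos fun j _ => div_pos (del_pos (hg j.1)) hppos
  set C1 : ℝ := (Fintype.card (κ ⊕ κ) : ℝ) * KK ^ nJ + 1 with hC1
  have hC1pos : 0 < C1 := by positivity
  obtain ⟨N, hN⟩ := exists_pow_lt_of_lt_one (show 0 < ε * A / C1 by positivity)
    (show 1 - c0 < 1 by linarith)
  obtain ⟨T, hTc, hT⟩ := exists_primes p N (4 * G + 8)
  set M : ℕ := ∏ l ∈ T, (l : ℕ) with hM
  -- the threshold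
  set R : (Σ i, Fin (g i)) → ℝ := fun j => (M : ℝ) + p * (N0 + 1) / del (g j.1) with hR
  choose a1 ha1 using fun j => Ysz_large g s p hs hss (R j) j
  refine ⟨(∑ j, a1 j) + 1, fun a ha => ?_⟩
  have ha0 : 0 < a := by omega
  have hY : ∀ j, R j ≤ Ysz g s p a j := fun j => ha1 j a
    ((Finset.single_le_sum (fun _ _ => Nat.zero_le _) (Finset.mem_univ j)).trans (by omega))
  have hRM : ∀ j, (M : ℝ) ≤ R j := fun j => by
    have := del_pos (hg j.1)
    rw [hR]; simp only; have : 0 ≤ (p : ℝ) * (N0 + 1) / del (g j.1) := by positivity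
    linarith
  have hRd : ∀ j, (p : ℝ) * (N0 + 1) ≤ del (g j.1) * Ysz g s p a j := fun j => by
    have hd := del_pos (hg j.1)
    have h1 : (p : ℝ) * (N0 + 1) / del (g j.1) ≤ Ysz g s p a j := by
      refine le_trans ?_ (hY j)
      rw [hR]; simp only; linarith [Nat.cast_nonneg (α := ℝ) M]
    rw [div_le_iff₀ hd] at h1
    linarith
  have hYd : ∀ j, (p : ℝ) ≤ del (g j.1) * Ysz g s p a j := fun j => by
    refine le_trans ?_ (hRd j)
    have : (0 : ℝ) ≤ N0 := Nat.cast_nonneg _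
    nlinarith
  have hYpos : ∀ j, 0 < Ysz g s p a j := fun j => by
    have hd := del_pos (hg j.1)
    have h1 := hppos.trans_le (hYd j)
    exact (pos_iff_pos_of_mul_pos h1).1 hd
  have hlow := Stratum_lower g s p ha0 hs hg hYd
  have hfin := Stratum_finite g s p ha0 hs
  refine ⟨hfin, ?_, ?_⟩
  · -- the number of elements
    obtain ⟨i0⟩ := (inferInstance : Nonempty κ)
    have h1 : (N0 : ℝ) ≤ ∏ j : (Σ i, Fin (g i)), (del (g j.1) / p * Ysz g s p a j) := by
      have hone : ∀ j : (Σ i, Fin (g i)), (N0 : ℝ) + 1 ≤ del (g j.1) / p * Ysz g s p a j := by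
        intro j
        rw [div_mul_eq_mul_div, le_div_iff₀ hppos]
        linarith [hRd j]
      let j0 : Σ i, Fin (g i) := ⟨i0, ⟨0, hg i0⟩⟩
      rw [← Finset.mul_prod_erase _ _ (Finset.mem_univ j0)]
      have h2 : (1 : ℝ) ≤ ∏ j ∈ Finset.univ.erase j0, (del (g j.1) / p * Ysz g s p a j) := by
        have h3 : (1 : ℝ) = ∏ _j ∈ Finset.univ.erase j0, (1 : ℝ) := by simp
        rw [h3]
        refine Finset.prod_le_prod (fun _ _ => zero_le_one) fun j _ => ?_
        have := hone j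
        have : (0 : ℝ) ≤ N0 := Nat.cast_nonneg _
        linarith
      have h4 := hone j0
      have h5 : (0 : ℝ) ≤ N0 := Nat.cast_nonneg _
      nlinarith
    exact_mod_cast h1.trans hlow
  · -- the bad elements
    let X' : κ ⊕ κ → Finset ((Σ i, Fin (g i)) → ℤ) := fun c =>
      (Fintype.piFinset fun j => Finset.Icc (-(box2 g s p a j : ℤ)) (box2 g s p a j)).filter
        (fun b : (Σ i, Fin (g i)) → ℤ => ∀ l ∈ T, (fun j => ((b j : ℤ) : ZMod (l : ℕ))) ∉
          SS' g s p a c l)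
    have hbad : {P ∈ Stratum g s p a | ¬ Neat p a P} ⊆
        ((Finset.univ.biUnion fun c => (X' c).image (Psi g s p a) : Finset (κ → ℤ[X])) :
          Set (κ → ℤ[X])) := by
      rintro P ⟨hP, hPbad⟩
      obtain ⟨b, hb, rfl⟩ := exists_of_mem_Stratum g s p ha0 hs hP
      by_contra hcon
      apply hPbad
      refine good_of_hits g s p a hg b T (fun l hl => (hT l hl).2) fun c => ?_
      by_contra hc
      push Not at hc
      apply hcon
      rw [Finset.mem_coe, Finset.mem_biUnion]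
      exact ⟨c, Finset.mem_univ _, Finset.mem_image_of_mem _ (Finset.mem_filter.2 ⟨hb, hc⟩)⟩
    have hXc : ∀ c, ((X' c).card : ℝ) ≤ (1 - c0) ^ N * (KK ^ nJ * ∏ j, Ysz g s p a j) := by
      intro c
      have h1 := sieve (box2 g s p a) T (fun l => SS' g s p a c l) c0 hc01 (by
        intro l hl
        exact SS'_card g s p a c l hg (fun i => by
          have := (hT l hl).1; have := hgG i; omega) (hT l hl).2)
      refine h1.trans ?_
      rw [hTc]
      refine mul_le_mul_of_nonneg_left ?_ (pow_nonneg (by linarith) _)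
      have h2 : KK ^ nJ * ∏ j, Ysz g s p a j = ∏ j, (KK * Ysz g s p a j) := by
        rw [Finset.prod_mul_distrib]; simp [hnJ]
      rw [h2]
      refine Finset.prod_le_prod (fun j _ => by positivity) fun j _ => ?_
      have hYj := hYpos j
      have h3 : (box2 g s p a j : ℝ) ≤ 4 ^ G * Ysz g s p a j := by
        refine (Nat.floor_le (by positivity)).trans ?_
        refine mul_le_mul_of_nonneg_right ?_ hYj.le
        have h4 : (2 : ℝ) ^ (g j.1 - (j.2 : ℕ)) ≤ 2 ^ G :=
          pow_le_pow_right₀ (by norm_num) ((Nat.sub_le _ _).trans (hgG j.1))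
        have h5 : ((g j.1).choose j.2 : ℝ) ≤ 2 ^ G := by
          have h6 : (g j.1).choose j.2 ≤ 2 ^ g j.1 := Nat.choose_le_two_pow _ _
          have h7 : (2 : ℕ) ^ g j.1 ≤ 2 ^ G := Nat.pow_le_pow_right (by norm_num) (hgG j.1)
          exact_mod_cast h6.trans h7
        calc _ ≤ (2 : ℝ) ^ G * 2 ^ G := mul_le_mul h4 h5 (by positivity) (by positivity)
          _ = 4 ^ G := by rw [← mul_pow]; norm_num
      have h4 : ((∏ l ∈ T, (l : ℕ) : ℕ) : ℝ) ≤ Ysz g s p a j := (hRM j).trans (hY j)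
      calc _ ≤ 2 * (4 ^ G * Ysz g s p a j) + Ysz g s p a j := by linarith
        _ = KK * Ysz g s p a j := by rw [hKK]; ring
    have hcard : (({P ∈ Stratum g s p a | ¬ Neat p a P}.ncard : ℕ) : ℝ) ≤
        (Fintype.card (κ ⊕ κ) : ℝ) * ((1 - c0) ^ N * (KK ^ nJ * ∏ j, Ysz g s p a j)) := by
      have h1 : ({P ∈ Stratum g s p a | ¬ Neat p a P}.ncard : ℕ) ≤ ∑ c, (X' c).card := by
        refine (Set.ncard_le_ncard hbad (Finset.finite_toSet _)).trans ?_
        rw [Set.ncard_coe_finset]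
        refine Finset.card_biUnion_le.trans (Finset.sum_le_sum fun c _ => Finset.card_image_le)
      calc (({P ∈ Stratum g s p a | ¬ Neat p a P}.ncard : ℕ) : ℝ)
          ≤ ∑ c, ((X' c).card : ℝ) := by exact_mod_cast h1
        _ ≤ ∑ _c : κ ⊕ κ, ((1 - c0) ^ N * (KK ^ nJ * ∏ j, Ysz g s p a j)) :=
            Finset.sum_le_sum fun c _ => hXc c
        _ = _ := by rw [Finset.sum_const, Finset.card_univ, nsmul_eq_mul]
    refine hcard.trans ?_
    have hlow' : A * ∏ j, Ysz g s p a j ≤ ((Stratum g s p a).ncard : ℝ) := by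
      rw [hA, ← Finset.prod_mul_distrib]; exact hlow
    have hYprod : 0 < ∏ j, Ysz g s p a j := Finset.prod_pos fun j _ => hYpos j
    have h1 : (Fintype.card (κ ⊕ κ) : ℝ) * ((1 - c0) ^ N * (KK ^ nJ * ∏ j, Ysz g s p a j)) ≤
        C1 * (1 - c0) ^ N * ∏ j, Ysz g s p a j := by
      have h2 : 0 ≤ (1 - c0) ^ N := pow_nonneg (by linarith) _
      have h3 : 0 ≤ (1 - c0) ^ N * ∏ j, Ysz g s p a j := mul_nonneg h2 hYprod.le
      rw [hC1]
      nlinarith
    have h2 : C1 * (1 - c0) ^ N ≤ ε * A := by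
      rw [lt_div_iff₀ hC1pos] at hN
      linarith
    calc _ ≤ C1 * (1 - c0) ^ N * ∏ j, Ysz g s p a j := h1
      _ ≤ ε * A * ∏ j, Ysz g s p a j := mul_le_mul_of_nonneg_right h2 hYprod.le
      _ = ε * (A * ∏ j, Ysz g s p a j) := by ring
      _ ≤ _ := mul_le_mul_of_nonneg_left hlow' hε.le

end final

end Pool.Agent.K3h30.NS
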